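import Pool.Agent.Y188.CN.Van
import Pool.Agent.Y188.CN.Conn

/-!
# A Kobayashi hyperbolic surface with a curve of negative conormal intersection number

The surface is the family `X ⊂ P² × P²` of plane curves `b₀ A(x) + 2 b₁ G(x) = 0` of degree 256,
parametrised by the Fermat quartic `b₀ ^ 4 + b₁ ^ 4 + b₂ ^ 4 = 0`, where
`A = x₀ ^ 240 x₂ ^ 16 + x₁ ^ 256 + x₀ ^ 16 x₁ ^ 240`, `G = x₀ ^ 256 + x₁ ^ 256 + γ x₂ ^ 256`.
The curve is the fibre `A = 0` over `b = (1 : 0 : ζ)`, `ζ ^ 4 = -1`. Its normalization is the Fermat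
curve `q ^ 16 + r ^ 16 = -1`, of genus 105, with the map `(1 : q : q ^ 15 r)`, and its 16 points at
infinity are branches of multiplicity 15 through `(0 : 0 : 1)`. So
`T*_Z X · T*_X X = (2 · 105 - 2) - 16 · 14 = -16`.
-/

set_option autoImplicit false

namespace Pool.Agent.Results.MP_225e67_ag.NegativeConormalNumber

open Pool.Agent.TH144.CN Pool.Agent.Y188.CN

/-- There is a smooth, connected, Kobayashi hyperbolic projective surface `X` and an irreducible
closed curve `Z ⊆ X` with `T*_Z X · T*_X X < 0`. Here `K` is the function field of `Z`, of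
transcendence degree one, `b` and `x` are the homogeneous coordinates of the generic point of `Z`,
and `D` is a nonzero rational vector field of `Z`. -/
theorem result :
    ∃ X Z : ClosedSet, X.SmoothSurface ∧ X.Connected ∧ KobayashiHyperbolic X.points ∧
      Z.points ⊆ X.points ∧
      ∃ (K : Type) (_ : Field K) (_ : Algebra ℂ K) (b x : Fin 3 → K) (D : Derivation ℂ K K),
        Z.FunctionField K b x ∧
        (∃ t : K, Transcendental ℂ t ∧
          ∀ f : K, IsAlgebraic (IntermediateField.adjoin ℂ {t}) f) ∧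
        D ≠ 0 ∧ indexNumber b x D < 0 ∧ conormalNumber b x D = indexNumber b x D := by
  obtain ⟨γ, hγ1, hγ2⟩ := exists_gamma
  have hγ0 : γ ≠ 0 := by
    rintro rfl
    rw [norm_zero] at hγ1
    norm_num at hγ1
  obtain ⟨ζ, hζ⟩ := IsAlgClosed.exists_pow_nat_eq (-1 : ℂ) (n := 4) (by norm_num)
  obtain ⟨K, hK, hKA, s, w, D, P, hE, hgen, hs, hw, hP⟩ := exists_model
  have h : Mdl s w D := ⟨hE, hgen, hs, hw⟩
  obtain ⟨N, hN, h1, h2⟩ := numbers h hP ζ
  refine ⟨Xs γ, Zs ζ, smooth hγ1 hγ2, connected hγ0 hγ2, Xs_hyperbolic hγ0, Zs_sub hζ, K, hK, hKA,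
    bvec ζ, xvec s⁻¹ (w * s⁻¹), dq s D, functionField h, ⟨s, hE.tr, isAlgebraic_of_gen hE hgen⟩,
    ?_, ?_, by rw [h1, h2]⟩
  · intro h0
    have h3 := h.dq_r
    rw [h0, Derivation.zero_apply] at h3
    exact neg_ne_zero.2 (pow_ne_zero 15 (inv_ne_zero h.s_ne)) h3.symm
  · rw [h1]
    have : (0 : ℤ) < N := by exact_mod_cast hN
    omega

end Pool.Agent.Results.MP_225e67_ag.NegativeConormalNumber
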